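import Mathlib

set_option autoImplicit false

open Polynomial Complex Set Filter Topology

namespace Pool.Agent.Lib.MP_51da40_an

/-- The cubic z^3 + z/4 + 1/2. -/
noncomputable def cubic : Polynomial ℂ := X ^ 3 + C (1 / 4 : ℂ) * X + C (1 / 2 : ℂ)

lemma cubic_eval (z : ℂ) : cubic.eval z = z ^ 3 + z / 4 + 1 / 2 := by
  simp [cubic]; ring

lemma cubic_natDegree : cubic.natDegree = 3 := by
  unfold cubic; compute_degree!

lemma cubic_monic : cubic.Monic := by
  unfold cubic; monicity!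

/-- The horizontal strip of half-width 1/4. -/
def strip : Set ℂ := {z | |z.im| < 1 / 4}

lemma strip_open : IsOpen strip :=
  isOpen_lt (continuous_abs.comp Complex.continuous_im) continuous_const

lemma cubic_injOn : InjOn cubic.eval strip := by
  intro z hz w hw h
  simp only [cubic_eval] at h
  have h1 : (z - w) * (z ^ 2 + z * w + w ^ 2 + 1 / 4) = 0 := by linear_combination h
  rcases mul_eq_zero.mp h1 with h2 | h2
  · exact sub_eq_zero.mp h2
  · exfalso
    have h3 := congrArg Complex.re h2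
    simp only [strip, mem_ofPred_eq, abs_lt] at hz hw
    simp [pow_two] at h3
    nlinarith [sq_nonneg (z.re + w.re), sq_nonneg z.re, sq_nonneg w.re, hz.1, hz.2, hw.1, hw.2,
      mul_pos (sub_pos.mpr hz.2) (sub_pos.mpr hw.2),
      mul_pos (sub_pos.mpr hz.1) (sub_pos.mpr hw.1),
      mul_pos (sub_pos.mpr hz.1) (sub_pos.mpr hz.2),
      mul_pos (sub_pos.mpr hw.1) (sub_pos.mpr hw.2)]

/-- The cubic as a homeomorphism from the strip onto its image. -/
noncomputable def cubicHomeo : OpenPartialHomeomorph ℂ ℂ :=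
  OpenPartialHomeomorph.ofContinuousOpen (cubic_injOn.toPartialEquiv _ _)
    (cubic.continuous.continuousOn)
    ((Polynomial.isOpenQuotientMap_eval cubic (by rw [cubic_natDegree]; norm_num)).isOpenMap)
    strip_open

lemma cubicHomeo_apply (z : ℂ) : cubicHomeo z = cubic.eval z := rfl

lemma cubicHomeo_source : cubicHomeo.source = strip := rfl

lemma cubicHomeo_target : cubicHomeo.target = cubic.eval '' strip := rfl

lemma real_mem_strip (x : ℝ) : (x : ℂ) ∈ strip := by simp [strip]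

lemma real_mem_target (r : ℝ) (hr : r ∈ Icc (67 / 500 : ℝ) (433 / 500)) :
    (r : ℂ) ∈ cubicHomeo.target := by
  have hc : ContinuousOn (fun x : ℝ => x ^ 3 + x / 4 + 1 / 2) (Icc (-3 / 5) (3 / 5)) := by
    fun_prop
  have h := intermediate_value_Icc (by norm_num : (-3 / 5 : ℝ) ≤ 3 / 5) hc
  have hr' : r ∈ Icc ((-3 / 5 : ℝ) ^ 3 + (-3 / 5) / 4 + 1 / 2) ((3 / 5 : ℝ) ^ 3 + (3 / 5) / 4 + 1 / 2) := by
    constructor
    · linarith [hr.1]
    · linarith [hr.2]
  obtain ⟨x, -, hx⟩ := h hr'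
  refine ⟨(x : ℂ), real_mem_strip x, ?_⟩
  show cubic.eval (x : ℂ) = r
  rw [cubic_eval, ← hx]; push_cast; ring

lemma symm_left : cubicHomeo.symm ((67 / 500 : ℝ) : ℂ) = ((-3 / 5 : ℝ) : ℂ) := by
  have h := cubicHomeo.left_inv (x := ((-3 / 5 : ℝ) : ℂ)) (real_mem_strip _)
  rw [← h, cubicHomeo_apply, cubic_eval]
  congr 1
  push_cast; norm_num

lemma symm_right : cubicHomeo.symm ((433 / 500 : ℝ) : ℂ) = ((3 / 5 : ℝ) : ℂ) := by
  have h := cubicHomeo.left_inv (x := ((3 / 5 : ℝ) : ℂ)) (real_mem_strip _)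
  rw [← h, cubicHomeo_apply, cubic_eval]
  congr 1
  push_cast; norm_num

/-- Nearby radial segments lift to long arcs. -/
lemma exists_delta : ∃ δ : ℝ, 0 < δ ∧ ∀ ω : ℂ, dist ω 1 < δ →
    (∀ r ∈ Icc (67 / 500 : ℝ) (433 / 500), (r : ℂ) * ω ∈ cubicHomeo.target) ∧
    1 + 1 / 10 < dist (cubicHomeo.symm (((67 / 500 : ℝ) : ℂ) * ω))
      (cubicHomeo.symm (((433 / 500 : ℝ) : ℂ) * ω)) := by
  rw [← Metric.eventually_nhds_iff]
  refine Filter.Eventually.and ?_ ?_
  · refine isCompact_Icc.eventually_forall_of_forall_eventually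
      (P := fun (ω : ℂ) (r : ℝ) => (r : ℂ) * ω ∈ cubicHomeo.target) ?_
    intro r hr
    have hc : Continuous (fun z : ℂ × ℝ => (z.2 : ℂ) * z.1) := by fun_prop
    refine hc.continuousAt.eventually_mem (cubicHomeo.open_target.mem_nhds ?_)
    simpa using real_mem_target r hr
  · have h1 : ContinuousAt (fun ω : ℂ => cubicHomeo.symm (((67 / 500 : ℝ) : ℂ) * ω)) 1 := by
      refine ContinuousAt.comp (g := cubicHomeo.symm) ?_ (by fun_prop)
      refine cubicHomeo.continuousAt_symm ?_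
      simpa using real_mem_target (67 / 500) (by constructor <;> norm_num)
    have h2 : ContinuousAt (fun ω : ℂ => cubicHomeo.symm (((433 / 500 : ℝ) : ℂ) * ω)) 1 := by
      refine ContinuousAt.comp (g := cubicHomeo.symm) ?_ (by fun_prop)
      refine cubicHomeo.continuousAt_symm ?_
      simpa using real_mem_target (433 / 500) (by constructor <;> norm_num)
    refine (continuousAt_const.eventually_lt (h1.dist h2) ?_)
    simp only [mul_one]
    rw [symm_left, symm_right, Complex.dist_eq, ← Complex.ofReal_sub, Complex.norm_real]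
    norm_num

/-- The polynomial P^k - (1 + r0^k). -/
noncomputable def lem (k : ℕ) : Polynomial ℂ :=
  cubic ^ k - C (((1 + (67 / 500 : ℝ) ^ k : ℝ)) : ℂ)

lemma lem_eval (k : ℕ) (z : ℂ) :
    (lem k).eval z = (cubic.eval z) ^ k - (((1 + (67 / 500 : ℝ) ^ k : ℝ)) : ℂ) := by
  simp [lem]

lemma lem_natDegree (k : ℕ) : (lem k).natDegree = 3 * k := by
  unfold lem
  rw [natDegree_sub_C, cubic_monic.natDegree_pow, cubic_natDegree, mul_comm]

lemma lem_monic (k : ℕ) (hk : 0 < k) : (lem k).Monic := by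
  unfold lem
  refine (cubic_monic.pow k).sub_of_left ?_
  refine lt_of_le_of_lt degree_C_le ?_
  rw [← natDegree_pos_iff_degree_pos, cubic_monic.natDegree_pow, cubic_natDegree]
  omega

lemma lem_bounded (k : ℕ) (hk : 0 < k) :
    Bornology.IsBounded {w : ℂ | ‖(lem k).eval w‖ ≤ 1} := by
  have hp : IsProperMap (lem k).eval := by
    refine (lem k).isProperMap_eval ?_
    rw [← natDegree_pos_iff_degree_pos, lem_natDegree]; omega
  have := hp.isCompact_preimage (isCompact_closedBall (0 : ℂ) 1)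
  refine this.isBounded.subset ?_
  intro w hw
  simpa using hw

lemma re_pos_of_mem (k : ℕ) (z : ℂ) (hz : ‖(lem k).eval z‖ ≤ 1) :
    0 < ((cubic.eval z) ^ k).re := by
  rw [lem_eval] at hz
  have h1 := (Complex.abs_re_le_norm _).trans hz
  rw [Complex.sub_re, Complex.ofReal_re, abs_le] at h1
  have : (0 : ℝ) < (67 / 500 : ℝ) ^ k := by positivity
  linarith [h1.1]

lemma mem_of_radial (k : ℕ) (z ω : ℂ) (r : ℝ) (hr : r ∈ Icc (67 / 500 : ℝ) (433 / 500))
    (hω : ω ^ k = 1) (hz : cubic.eval z = (r : ℂ) * ω) : ‖(lem k).eval z‖ ≤ 1 := by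
  rw [lem_eval, hz, mul_pow, hω, mul_one, ← Complex.ofReal_pow, ← Complex.ofReal_sub,
    Complex.norm_real, Real.norm_eq_abs, abs_le]
  have h1 : (67 / 500 : ℝ) ^ k ≤ r ^ k := pow_le_pow_left₀ (by norm_num) hr.1 k
  have h2 : r ^ k ≤ 1 := pow_le_one₀ (by linarith [hr.1]) (by linarith [hr.2])
  have h3 : (0 : ℝ) < (67 / 500 : ℝ) ^ k := by positivity
  constructor <;> linarith

/-- The sector label. -/
noncomputable def label (k : ℕ) (z : ℂ) : ℂ :=
  cubic.eval z / Complex.exp (Complex.log ((cubic.eval z) ^ k) / k)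

lemma label_continuousOn (k : ℕ) :
    ContinuousOn (label k) {w : ℂ | ‖(lem k).eval w‖ ≤ 1} := by
  intro z hz
  refine ContinuousAt.continuousWithinAt ?_
  have hc : Continuous (fun z : ℂ => cubic.eval z) := cubic.continuous
  refine ContinuousAt.div hc.continuousAt ?_ (Complex.exp_ne_zero _)
  refine Complex.continuous_exp.continuousAt.comp ?_
  refine ContinuousAt.div_const ?_ _
  refine ContinuousAt.clog (hc.pow k).continuousAt ?_
  exact Or.inl (re_pos_of_mem k z hz)

lemma label_pow (k : ℕ) (hk : 0 < k) (z : ℂ) (hz : ‖(lem k).eval z‖ ≤ 1) :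
    (label k z) ^ k = 1 := by
  have h0 : (cubic.eval z) ^ k ≠ 0 := by
    intro h
    have := re_pos_of_mem k z hz
    rw [h] at this; simp at this
  have hk' : (k : ℂ) ≠ 0 := by exact_mod_cast hk.ne'
  unfold label
  rw [div_pow, ← Complex.exp_nat_mul, mul_div_cancel₀ _ hk', Complex.exp_log h0, div_self h0]

lemma label_radial (k : ℕ) (hk : 0 < k) (z ω : ℂ) (r : ℝ) (hr : 0 < r)
    (hω : ω ^ k = 1) (hz : cubic.eval z = (r : ℂ) * ω) : label k z = ω := by
  have hk' : (k : ℂ) ≠ 0 := by exact_mod_cast hk.ne'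
  have hr' : (r : ℂ) ≠ 0 := by exact_mod_cast hr.ne'
  unfold label
  rw [hz, mul_pow, hω, mul_one, ← Complex.ofReal_pow, ← Complex.ofReal_log (by positivity),
    Real.log_pow]
  push_cast
  rw [mul_div_cancel_left₀ _ hk', ← Complex.ofReal_exp,
    Real.exp_log hr]
  field_simp

lemma label_eq_of_component (k : ℕ) (hk : 0 < k) (z w : ℂ) (hz : ‖(lem k).eval z‖ ≤ 1)
    (hw : ‖(lem k).eval w‖ ≤ 1)
    (h : connectedComponentIn {w : ℂ | ‖(lem k).eval w‖ ≤ 1} z =
      connectedComponentIn {w : ℂ | ‖(lem k).eval w‖ ≤ 1} w) : label k z = label k w := by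
  have hfin : {u : ℂ | u ^ k = 1}.Finite := by
    have : {u : ℂ | u ^ k = 1} ⊆ ((Polynomial.nthRoots k (1 : ℂ)).toFinset : Set ℂ) := by
      intro u hu
      simp only [Finset.mem_coe, Multiset.mem_toFinset]
      exact (Polynomial.mem_nthRoots hk).mpr hu
    exact (Finset.finite_toSet _).subset this
  have hsub := connectedComponentIn_subset {w : ℂ | ‖(lem k).eval w‖ ≤ 1} z
  refine (isPreconnected_connectedComponentIn (F := {w : ℂ | ‖(lem k).eval w‖ ≤ 1})
    (x := z)).constant_of_mapsTo hfin.isDiscrete ((label_continuousOn k).mono hsub) ?_ ?_ ?_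
  · intro u hu
    exact label_pow k hk u (hsub hu)
  · exact mem_connectedComponentIn hz
  · rw [h]; exact mem_connectedComponentIn hw

/-- A long component for each root of unity close to 1. -/
lemma long_component (k : ℕ) (hk : 0 < k) (ω : ℂ) (hω : ω ^ k = 1)
    (h1 : ∀ r ∈ Icc (67 / 500 : ℝ) (433 / 500), (r : ℂ) * ω ∈ cubicHomeo.target)
    (h2 : 1 + 1 / 10 < dist (cubicHomeo.symm (((67 / 500 : ℝ) : ℂ) * ω))
      (cubicHomeo.symm (((433 / 500 : ℝ) : ℂ) * ω))) :
    ‖(lem k).eval (cubicHomeo.symm (((67 / 500 : ℝ) : ℂ) * ω))‖ ≤ 1 ∧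
    label k (cubicHomeo.symm (((67 / 500 : ℝ) : ℂ) * ω)) = ω ∧
    1 + 1 / 10 < Metric.diam (connectedComponentIn {w : ℂ | ‖(lem k).eval w‖ ≤ 1}
      (cubicHomeo.symm (((67 / 500 : ℝ) : ℂ) * ω))) := by
  have hl : (67 / 500 : ℝ) ∈ Icc (67 / 500 : ℝ) (433 / 500) := by constructor <;> norm_num
  have hr : (433 / 500 : ℝ) ∈ Icc (67 / 500 : ℝ) (433 / 500) := by constructor <;> norm_num
  have hev : ∀ r ∈ Icc (67 / 500 : ℝ) (433 / 500),
      cubic.eval (cubicHomeo.symm ((r : ℂ) * ω)) = (r : ℂ) * ω := by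
    intro r hr
    exact cubicHomeo.right_inv (h1 r hr)
  have hmem : ∀ r ∈ Icc (67 / 500 : ℝ) (433 / 500),
      ‖(lem k).eval (cubicHomeo.symm ((r : ℂ) * ω))‖ ≤ 1 := fun r hr =>
    mem_of_radial k _ ω r hr hω (hev r hr)
  refine ⟨hmem _ hl, label_radial k hk _ ω _ (by norm_num) hω (hev _ hl), ?_⟩
  have hcont : ContinuousOn (fun r : ℝ => cubicHomeo.symm ((r : ℂ) * ω))
      (Icc (67 / 500 : ℝ) (433 / 500)) := by
    refine cubicHomeo.continuousOn_symm.comp (f := fun r : ℝ => (r : ℂ) * ω) (by fun_prop) ?_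
    intro r hr
    exact h1 r hr
  have hpre := isPreconnected_Icc.image _ hcont
  have hsub := hpre.subset_connectedComponentIn (F := {w : ℂ | ‖(lem k).eval w‖ ≤ 1})
    (mem_image_of_mem _ hl) (by rintro _ ⟨r, hr, rfl⟩; exact hmem r hr)
  refine lt_of_lt_of_le h2 (Metric.dist_le_diam_of_mem ?_ ?_ ?_)
  · exact (lem_bounded k hk).subset (connectedComponentIn_subset _ _)
  · exact hsub (mem_image_of_mem _ hl)
  · exact hsub (mem_image_of_mem _ hr)

/-- Linearly many long components. -/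
theorem many_components : ∃ L : ℕ, 0 < L ∧ ∀ m : ℕ, 0 < m →
    ∃ s : Finset (Set ℂ), s.card = m ∧
      ∀ C ∈ s, (∃ z : ℂ, ‖(lem (m * L)).eval z‖ ≤ 1 ∧
              connectedComponentIn {w : ℂ | ‖(lem (m * L)).eval w‖ ≤ 1} z = C) ∧
            1 + 1 / 10 < Metric.diam C := by
  classical
  obtain ⟨δ, hδ, hδ'⟩ := exists_delta
  obtain ⟨L, hL⟩ := exists_nat_gt (2 * Real.pi / δ)
  have hLpos : (0 : ℝ) < L := lt_trans (by positivity) hL
  have hL0 : 0 < L := by exact_mod_cast hLpos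
  refine ⟨L, hL0, fun m hm => ?_⟩
  set k := m * L with hk
  have hk0 : 0 < k := Nat.mul_pos hm hL0
  have hζ := Complex.isPrimitiveRoot_exp k hk0.ne'
  set ζ : ℂ := Complex.exp (2 * Real.pi * Complex.I / k) with hζdef
  have hpow : ∀ j : ℕ, (ζ ^ j) ^ k = 1 := by
    intro j
    rw [← pow_mul, mul_comm, pow_mul, hζ.pow_eq_one, one_pow]
  have hclose : ∀ j : ℕ, j < m → dist (ζ ^ j) 1 < δ := by
    intro j hj
    have hkR : (k : ℝ) = m * L := by rw [hk]; push_cast; ring
    have hmR : (0 : ℝ) < m := by exact_mod_cast hm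
    have hjR : (j : ℝ) ≤ m := by exact_mod_cast hj.le
    have e1 : ζ ^ j = Complex.exp (Complex.I * ((2 * Real.pi * j / k : ℝ) : ℂ)) := by
      rw [hζdef, ← Complex.exp_nat_mul]
      congr 1
      push_cast; ring
    rw [e1, Complex.dist_eq]
    refine lt_of_le_of_lt Real.norm_exp_I_mul_ofReal_sub_one_le ?_
    rw [Real.norm_eq_abs, abs_of_nonneg (by positivity), hkR, div_lt_iff₀ (by positivity)]
    rw [div_lt_iff₀ hδ] at hL
    have : 2 * Real.pi * j ≤ 2 * Real.pi * m := by gcongr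
    nlinarith [Real.pi_pos]
  have hlong := fun (j : ℕ) (hj : j < m) =>
    long_component k hk0 (ζ ^ j) (hpow j) (hδ' _ (hclose j hj)).1 (hδ' _ (hclose j hj)).2
  refine ⟨(Finset.range m).image (fun j => connectedComponentIn {w : ℂ | ‖(lem k).eval w‖ ≤ 1}
      (cubicHomeo.symm (((67 / 500 : ℝ) : ℂ) * ζ ^ j))), ?_, ?_⟩
  · rw [Finset.card_image_of_injOn, Finset.card_range]
    intro i hi j hj hij
    simp only [Finset.coe_range, mem_Iio] at hi hj
    have h := label_eq_of_component k hk0 _ _ (hlong i hi).1 (hlong j hj).1 hij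
    rw [(hlong i hi).2.1, (hlong j hj).2.1] at h
    have hmk : m ≤ k := Nat.le_mul_of_pos_right m hL0
    exact hζ.pow_inj (lt_of_lt_of_le hi hmk) (lt_of_lt_of_le hj hmk) h
  · intro C hC
    obtain ⟨j, hj, rfl⟩ := Finset.mem_image.mp hC
    rw [Finset.mem_range] at hj
    exact ⟨⟨_, (hlong j hj).1, rfl⟩, (hlong j hj).2.2⟩

end Pool.Agent.Lib.MP_51da40_an
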