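import Mathlib

/-! Linearly many components of diameter close to 4, in every large degree. -/

open Polynomial Set Filter Topology Metric

namespace Pool.Agent.Lib.MP_51da40_an.Sharp

/-- Monic polynomials that are small on a segment of length less than 4. -/
lemma exists_small (t : ℝ) (n : ℕ) : ∃ (S : ℝ[X]) (m : ℕ), S.Monic ∧ n < m ∧
    S.natDegree = m ∧ ∀ x, |x| ≤ 2 * t → |S.eval x| ≤ 2 * t ^ m := by
  induction n with
  | zero => exact ⟨X, 1, monic_X, one_pos, natDegree_X, fun x hx => by simpa using hx⟩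
  | succ n ih =>
    obtain ⟨S, m, h1, h2, h3, h4⟩ := ih
    have hd : (S ^ 2).natDegree = 2 * m := by rw [h1.natDegree_pow, h3]
    refine ⟨S ^ 2 - C (2 * t ^ (2 * m)), 2 * m, (h1.pow 2).sub_of_left (degree_C_le.trans_lt ?_),
      by omega, by rw [natDegree_sub_C, hd], fun x hx => ?_⟩
    · rw [← natDegree_pos_iff_degree_pos, hd]
      omega
    · have h5 := abs_le.1 (h4 x hx)
      rw [eval_sub, eval_pow, eval_C, pow_mul', abs_le]
      constructor <;> nlinarith [sq_nonneg (S.eval x), h5.1, h5.2]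

/-- A monic polynomial that is injective near a long segment and almost constant on it. -/
lemma exists_inj {t : ℝ} (h0 : 0 < t) (h1 : t < 1) : ∃ (M : ℝ[X]) (U : Set ℂ), M.Monic ∧
    0 < M.natDegree ∧ IsOpen U ∧ InjOn (M.map (algebraMap ℝ ℂ)).eval U ∧
    ∀ x : ℝ, |x| ≤ 2 * t → (x : ℂ) ∈ U ∧ M.eval x ∈ Icc (3 / 8 : ℝ) (1 / 2) := by
  obtain ⟨n, hn⟩ := exists_pow_lt_of_lt_one (by norm_num : (0 : ℝ) < 1 / 4) h1
  obtain ⟨S, m, hS, hm, hd, hb⟩ := exists_small t n
  have hb' : ∀ x, |x| ≤ 2 * t → |S.eval x| ≤ 1 / 2 := fun x hx => (hb x hx).trans (by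
    linarith [pow_le_pow_of_le_one h0.le h1.le hm.le])
  set T := S.map (algebraMap ℝ ℂ) with hT
  have hev : ∀ (Q : ℝ[X]) (x : ℝ), (Q.map (algebraMap ℝ ℂ)).eval (x : ℂ) = (Q.eval x : ℝ) :=
    fun Q x => eval_map_algebraMap Q (x : ℂ) ▸ aeval_algebraMap_apply_eq_algebraMap_eval x Q
  let K : Set ℂ := Complex.ofRealCLM '' closedBall 0 (2 * t)
  have hK : IsCompact K := (isCompact_closedBall _ _).image Complex.ofRealCLM.continuous
  have hKc : Convex ℝ K := (convex_closedBall _ _).linear_image Complex.ofRealCLM.toLinearMap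
  obtain ⟨B, hB⟩ := hK.exists_bound_of_continuousOn (derivative T).continuous.continuousOn
  have hB0 : 0 ≤ B := (norm_nonneg _).trans (hB _ ⟨0, mem_closedBall_self (by positivity), rfl⟩)
  obtain ⟨δ, hδ, hU⟩ := hK.exists_thickening_subset_open
    (t := {z | ‖T.eval z‖ < 2 / 3} ∩ {z | ‖(derivative T).eval z‖ < B + 1})
    ((isOpen_lt T.continuous.norm continuous_const).inter
      (isOpen_lt (derivative T).continuous.norm continuous_const)) (by
      rintro _ ⟨x, hx, rfl⟩
      refine ⟨?_, (hB _ ⟨x, hx, rfl⟩).trans_lt (lt_add_one B)⟩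
      have := hb' x (by simpa using hx)
      show ‖T.eval (x : ℂ)‖ < 2 / 3
      rw [hev, Complex.norm_real, Real.norm_eq_abs]
      linarith)
  have hlim := (tendsto_self_mul_const_pow_of_lt_one (r := 2 / 3) (by norm_num)
    (by norm_num)).mul_const (3 / 2 * (B + 1))
  rw [zero_mul] at hlim
  obtain ⟨q, hq, hq5⟩ := ((hlim.eventually (gt_mem_nhds (by norm_num : (0 : ℝ) < 1 / 128))).and
    (eventually_ge_atTop 5)).exists
  obtain ⟨q, rfl⟩ : ∃ k, q = k + 1 := ⟨q - 1, by omega⟩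
  have hdq : (S ^ (q + 1)).natDegree = (q + 1) * m := by rw [hS.natDegree_pow, hd]
  have hlt : (C (1 / 64 : ℝ) * X + C (7 / 16 : ℝ)).natDegree < (S ^ (q + 1)).natDegree :=
    natDegree_linear_le.trans_lt (by rw [hdq]; nlinarith)
  refine ⟨S ^ (q + 1) + (C (1 / 64) * X + C (7 / 16)), thickening δ K,
    (hS.pow _).add_of_left (degree_lt_degree hlt), ?_, isOpen_thickening, fun z hz w hw h => ?_,
    fun x hx => ⟨self_subset_thickening hδ K ⟨x, by simpa using hx, rfl⟩, ?_⟩⟩
  · rw [natDegree_add_eq_left_of_natDegree_lt hlt]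
    omega
  · have h2 := (hKc.thickening δ).norm_image_sub_le_of_norm_hasDerivWithin_le
      (f := fun z => T.eval z ^ (q + 1)) (C := 1 / 128)
      (fun y _ => ((T.hasDerivAt y).pow (q + 1)).hasDerivWithinAt) (fun y hy => by
        rw [norm_mul, norm_mul, norm_pow, Complex.norm_natCast, Nat.add_sub_cancel]
        refine le_trans (b := ((q + 1 : ℕ) : ℝ) * (2 / 3) ^ q * (B + 1)) ?_
          (le_of_eq_of_le (by ring) hq.le)
        gcongr
        exacts [(hU hy).1.le, (hU hy).2.le]) hz hw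
    have h3 : T.eval w ^ (q + 1) - T.eval z ^ (q + 1) = -(1 / 64) * (w - z) := by
      simp only [Polynomial.map_add, Polynomial.map_pow, Polynomial.map_mul, map_C, map_X,
        eval_add, eval_pow, eval_mul, eval_C, eval_X, ← hT, map_div₀, map_one, map_ofNat] at h
      linear_combination -h
    rw [h3, norm_mul, norm_neg, norm_div, norm_one, Complex.norm_ofNat] at h2
    exact (sub_eq_zero.1 (norm_le_zero_iff.1 (by linarith))).symm
  · have h2 : |S.eval x ^ (q + 1)| ≤ (1 / 2) ^ 5 := by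
      rw [abs_pow]
      exact (pow_le_pow_left₀ (abs_nonneg _) (hb' x hx) _).trans
        (pow_le_pow_of_le_one (by norm_num) (by norm_num) hq5)
    have h3 := abs_le.1 h2
    have h4 := abs_le.1 hx
    simp only [eval_add, eval_pow, eval_mul, eval_C, eval_X]
    constructor <;> linarith

/-- Radial segments close to the positive axis lift to long arcs. -/
lemma exists_arcs {D : ℝ} (hD : D < 4) : ∃ (M : ℂ[X]) (a b δ : ℝ), M.Monic ∧ 0 < M.natDegree ∧
    uIcc a b ⊆ Icc (3 / 8) (1 / 2) ∧ 0 < δ ∧ ∀ ω : ℂ, dist ω 1 < δ → ∃ γ : ℝ → ℂ,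
      ContinuousOn γ (uIcc a b) ∧ (∀ r ∈ uIcc a b, M.eval (γ r) = r * ω) ∧
        D < dist (γ a) (γ b) := by
  obtain ⟨t, ht, h1⟩ := exists_between (max_lt (show D / 4 < 1 by linarith) one_pos)
  have h0 : 0 < t := (le_max_right _ _).trans_lt ht
  have hDt : D / 4 < t := (le_max_left _ _).trans_lt ht
  obtain ⟨M, U, hM, hd, hU, hi, hx⟩ := exists_inj h0 h1
  set P := M.map (algebraMap ℝ ℂ) with hP
  have hdP : 0 < P.natDegree := by rwa [hP, hM.natDegree_map]
  have hev : ∀ x : ℝ, P.eval (x : ℂ) = (M.eval x : ℝ) :=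
    fun x => eval_map_algebraMap M (x : ℂ) ▸ aeval_algebraMap_apply_eq_algebraMap_eval x M
  let e : OpenPartialHomeomorph ℂ ℂ := OpenPartialHomeomorph.ofContinuousOpen
    (hi.toPartialEquiv _ _) P.continuous.continuousOn
    (P.isOpenQuotientMap_eval hdP.ne').isOpenMap hU
  have ha : |-(2 * t)| ≤ 2 * t := by rw [abs_neg, abs_of_pos (by positivity)]
  have hb : |2 * t| ≤ 2 * t := by rw [abs_of_pos (by positivity)]
  have hr : ∀ r ∈ uIcc (M.eval (-(2 * t))) (M.eval (2 * t)), (r : ℂ) ∈ e.target := fun r hr => by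
    obtain ⟨x, hx', rfl⟩ := intermediate_value_uIcc M.continuous.continuousOn hr
    rw [uIcc_of_le (by linarith)] at hx'
    exact ⟨x, (hx x (abs_le.2 hx')).1, hev x⟩
  have hs : ∀ x : ℝ, |x| ≤ 2 * t → e.symm (M.eval x : ℝ) = x := fun x h => by
    rw [← hev]
    exact e.left_inv (hx x h).1
  have hc : ∀ r ∈ uIcc (M.eval (-(2 * t))) (M.eval (2 * t)),
      ContinuousAt (fun ω : ℂ => e.symm (r * ω)) 1 := fun r h =>
    ContinuousAt.comp (g := e.symm) (e.continuousAt_symm (by simpa using hr r h)) (by fun_prop)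
  have h2 : ∀ᶠ ω : ℂ in 𝓝 1, ∀ r ∈ uIcc (M.eval (-(2 * t))) (M.eval (2 * t)),
      (r : ℂ) * ω ∈ e.target :=
    isCompact_uIcc.eventually_forall_of_forall_eventually
      (P := fun (ω : ℂ) (r : ℝ) => (r : ℂ) * ω ∈ e.target) fun r h =>
      (by fun_prop : Continuous fun z : ℂ × ℝ => (z.2 : ℂ) * z.1).continuousAt.eventually_mem
        (e.open_target.mem_nhds (by simpa using hr r h))
  have h3 := (continuousAt_const (y := D)).eventually_lt
    ((hc _ left_mem_uIcc).dist (hc _ right_mem_uIcc)) (by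
      simp only [mul_one]
      rw [hs _ ha, hs _ hb, Complex.dist_eq, ← Complex.ofReal_sub, Complex.norm_real,
        Real.norm_eq_abs]
      exact lt_abs.2 (Or.inr (by linarith)))
  obtain ⟨δ, hδ, h4⟩ := Metric.eventually_nhds_iff.1 (h2.and h3)
  exact ⟨P, _, _, δ, hM.map _, hdP, uIcc_subset_Icc (hx _ ha).2 (hx _ hb).2, hδ, fun ω hω =>
    ⟨fun r => e.symm (r * ω), e.continuousOn_symm.comp (f := fun r : ℝ => (r : ℂ) * ω)
      (by fun_prop) (h4 hω).1, fun r h => e.right_inv ((h4 hω).1 r h), (h4 hω).2⟩⟩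

/-- The sector label. -/
noncomputable def label (k : ℕ) (w : ℂ) : ℂ := w / Complex.exp (Complex.log (w ^ k) / k)

lemma label_pow {k : ℕ} (hk : k ≠ 0) {w : ℂ} (h : 0 < (w ^ k).re) : label k w ^ k = 1 := by
  have h0 : w ^ k ≠ 0 := fun e => by simp [e] at h
  rw [label, div_pow, ← Complex.exp_nat_mul, mul_div_cancel₀ _ (Nat.cast_ne_zero.2 hk),
    Complex.exp_log h0, div_self h0]

lemma label_radial {k : ℕ} (hk : k ≠ 0) {ω : ℂ} {r : ℝ} (hr : 0 < r) (hω : ω ^ k = 1) :
    label k (r * ω) = ω := by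
  rw [label, mul_pow, hω, mul_one, ← Complex.ofReal_pow, ← Complex.ofReal_log (by positivity),
    Real.log_pow, Complex.ofReal_mul, Complex.ofReal_natCast,
    mul_div_cancel_left₀ _ (Nat.cast_ne_zero.2 hk), ← Complex.ofReal_exp, Real.exp_log hr,
    mul_div_cancel_left₀ _ (Complex.ofReal_ne_zero.2 hr.ne')]

lemma label_const {k : ℕ} (hk : k ≠ 0) {G : ℂ → ℂ} (hG : Continuous G) {s : Set ℂ}
    (hs : IsPreconnected s) (h : ∀ z ∈ s, 0 < (G z ^ k).re) {z w : ℂ} (hz : z ∈ s) (hw : w ∈ s) :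
    label k (G z) = label k (G w) := by
  have hfin : {u : ℂ | u ^ k = 1}.Finite :=
    (nthRoots k (1 : ℂ)).toFinset.finite_toSet.subset fun u hu => by
      simpa [mem_nthRoots (Nat.pos_of_ne_zero hk)] using hu
  refine hs.constant_of_mapsTo hfin.isDiscrete (f := fun z => label k (G z))
    (fun u hu => ContinuousAt.continuousWithinAt ?_) (fun u hu => label_pow hk (h u hu)) hz hw
  exact hG.continuousAt.div (Complex.continuous_exp.continuousAt.comp
    (((hG.pow k).continuousAt.clog (Or.inl (h u hu))).div_const _)) (Complex.exp_ne_zero _)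

/-- The three estimates for the perturbed polynomial. -/
lemma estimates {k : ℕ} (hk : k ≠ 0) {w u : ℂ} (hu : ‖u‖ ≤ (3 / 4) ^ k / 4) :
    (∀ r ∈ Icc (3 / 4 : ℝ) 1, w ^ k = (r ^ k : ℝ) →
      ‖(w ^ k - (1 + (3 / 4) ^ k / 2 : ℝ)) * (1 + u)‖ ≤ 1) ∧
    (‖(w ^ k - (1 + (3 / 4) ^ k / 2 : ℝ)) * (1 + u)‖ ≤ 1 → 0 < (w ^ k).re ∧ ‖w‖ ≤ 4) := by
  have h0 : (0 : ℝ) < (3 / 4) ^ k := by positivity
  have h1 : ((3 : ℝ) / 4) ^ k ≤ 1 := pow_le_one₀ (by norm_num) (by norm_num)
  set ρ : ℝ := (3 / 4) ^ k with hρ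
  have u1 : ‖1 + u‖ ≤ 1 + ρ / 4 := (norm_add_le _ _).trans (by rw [norm_one]; linarith)
  have u2 : 1 - ρ / 4 ≤ ‖1 + u‖ := by
    have := norm_sub_le (1 + u) u
    rw [add_sub_cancel_right, norm_one] at this
    linarith
  rw [norm_mul]
  refine ⟨fun r hr e => ?_, fun h => ?_⟩
  · have a1 : ρ ≤ r ^ k := pow_le_pow_left₀ (by norm_num) hr.1 k
    have a2 : r ^ k ≤ 1 := pow_le_one₀ (by linarith [hr.1]) hr.2
    rw [e, ← Complex.ofReal_sub, Complex.norm_real, Real.norm_eq_abs, abs_of_nonpos (by linarith)]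
    nlinarith [norm_nonneg (1 + u)]
  have h2 := (mul_le_mul_of_nonneg_left u2 (norm_nonneg _)).trans h
  constructor
  · have a1 := Complex.abs_re_le_norm (w ^ k - (1 + ρ / 2 : ℝ))
    rw [Complex.sub_re, Complex.ofReal_re, abs_le] at a1
    nlinarith [a1.1]
  · by_contra h3
    have a1 : ‖w‖ ≤ ‖w‖ ^ k := le_self_pow₀ (by linarith) hk
    have a2 := norm_sub_norm_le (w ^ k) (1 + ρ / 2 : ℝ)
    rw [norm_pow, Complex.norm_real, Real.norm_eq_abs, abs_of_pos (by linarith)] at a2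
    nlinarith

theorem main {D : ℝ} (hD : D < 4) : ∃ δ : ℝ, 0 < δ ∧ ∃ N : ℕ, ∀ n ≥ N, ∃ f : ℂ[X], f.Monic ∧
    f.natDegree = n ∧ ∃ s : Finset (Set ℂ), δ * n ≤ s.card ∧ ∀ C ∈ s,
      (∃ z, ‖f.eval z‖ ≤ 1 ∧ C = connectedComponentIn {w | ‖f.eval w‖ ≤ 1} z) ∧
        ∃ u ∈ C, ∃ v ∈ C, D < dist u v := by
  classical
  obtain ⟨M, a, b, δ, hM, hd, hab, hδ, hγ⟩ := exists_arcs hD
  set d := M.natDegree with hdd
  obtain ⟨R, hR1, hR⟩ := ((M.isProperMap_eval (natDegree_pos_iff_degree_pos.1 hd)).isCompact_preimage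
    (isCompact_closedBall (0 : ℂ) 2)).isBounded.subset_ball_lt 1 0
  obtain ⟨L, hL⟩ := exists_nat_gt (2 * Real.pi / δ)
  have hLpos : (0 : ℝ) < L := lt_trans (by positivity) hL
  have hL0 : 0 < L := by exact_mod_cast hLpos
  obtain ⟨k₀, hk₀⟩ := exists_pow_lt_of_lt_one (by positivity : 0 < 1 / (4 * R ^ d))
    (by norm_num : (2 / 3 : ℝ) < 1)
  refine ⟨1 / (2 * L * d), by positivity, 2 * (1 + d + L * d) + d * k₀, fun n hn => ?_⟩
  obtain ⟨k, j, hj0, hj, hn'⟩ : ∃ k j, j ≠ 0 ∧ j ≤ d ∧ n = k * d + j :=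
    ⟨(n - 1) / d, (n - 1) % d + 1, by omega, Nat.mod_lt _ hd, by
      have := Nat.div_add_mod' (n - 1) d
      omega⟩
  have hk1 : k₀ < k := by
    by_contra h
    have := Nat.mul_le_mul_right d (not_lt.1 h)
    nlinarith
  have hk : k ≠ 0 := by omega
  let f : ℂ[X] := (M ^ k - C (((1 + (3 / 4) ^ k / 2 : ℝ) : ℂ) / 2 ^ k)) * (X ^ j + C (2 ^ k))
  have hdk : (M ^ k).natDegree = k * d := hM.natDegree_pow k
  have hm1 : (M ^ k - C (((1 + (3 / 4) ^ k / 2 : ℝ) : ℂ) / 2 ^ k)).Monic :=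
    (hM.pow k).sub_of_left (degree_C_le.trans_lt (by
      rw [← natDegree_pos_iff_degree_pos, hdk]; positivity))
  have hm2 : (X ^ j + C (2 ^ k) : ℂ[X]).Monic := monic_X_pow_add_C _ hj0
  have hf : ∀ z, f.eval z = ((2 * M.eval z) ^ k - (1 + (3 / 4) ^ k / 2 : ℝ)) *
      (1 + z ^ j / 2 ^ k) := fun z => by
    simp only [f, eval_mul, eval_sub, eval_add, eval_pow, eval_C, eval_X, mul_pow]
    field_simp
    ring
  have hu : ∀ z : ℂ, ‖z‖ ≤ R → ‖z ^ j / 2 ^ k‖ ≤ (3 / 4) ^ k / 4 := fun z hz => by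
    have a1 : ‖z‖ ^ j ≤ R ^ d :=
      (pow_le_pow_left₀ (norm_nonneg _) hz j).trans (pow_le_pow_right₀ hR1.le hj)
    have a2 := (pow_le_pow_of_le_one (by norm_num) (by norm_num) hk1.le).trans hk₀.le
    have a3 : ((2 : ℝ) / 3) ^ k * ((3 / 4) ^ k * 2 ^ k) = 1 := by
      rw [← mul_pow, ← mul_pow]
      norm_num
    rw [le_div_iff₀ (by positivity)] at a2
    rw [norm_div, norm_pow, norm_pow, Complex.norm_ofNat, div_le_iff₀ (by positivity)]
    have a4 := mul_le_mul_of_nonneg_right a2 (by positivity : (0 : ℝ) ≤ (3 / 4) ^ k * 2 ^ k)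
    rw [mul_right_comm, a3] at a4
    linarith
  have hball : ∀ z : ℂ, ‖2 * M.eval z‖ ≤ 4 → ‖z‖ < R := fun z hz =>
    mem_ball_zero_iff.1 (hR (by
      rw [norm_mul, Complex.norm_ofNat] at hz
      exact mem_closedBall_zero_iff.2 (by linarith)))
  have hcomp : ∀ z : ℂ, ‖z‖ < R → ‖f.eval z‖ ≤ 1 →
      ∀ w ∈ connectedComponentIn {w | ‖f.eval w‖ ≤ 1} z, 0 < ((2 * M.eval w) ^ k).re := by
    intro z hz hz' w hw
    have hsub := connectedComponentIn_subset {w | ‖f.eval w‖ ≤ 1} z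
    have h1 := isPreconnected_connectedComponentIn.subset_left_of_subset_union isOpen_ball
      isClosed_closedBall.isOpen_compl (disjoint_compl_right_iff_subset.2 ball_subset_closedBall)
      (fun y hy => by
        by_cases h : ‖y‖ ≤ R
        · exact Or.inl (mem_ball_zero_iff.2
            (hball y ((estimates hk (hu y h)).2 (hf y ▸ hsub hy)).2))
        · exact Or.inr fun h' => h (mem_closedBall_zero_iff.1 h'))
      ⟨z, mem_connectedComponentIn hz', mem_ball_zero_iff.2 hz⟩ hw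
    exact ((estimates hk (hu w (mem_ball_zero_iff.1 h1).le)).2 (hf w ▸ hsub hw)).1
  have hζ := Complex.isPrimitiveRoot_exp k hk
  set ζ : ℂ := Complex.exp (2 * Real.pi * Complex.I / k) with hζdef
  have hpow : ∀ i : ℕ, (ζ ^ i) ^ k = 1 := fun i => by
    rw [← pow_mul, mul_comm, pow_mul, hζ.pow_eq_one, one_pow]
  have hclose : ∀ i : Fin (k / L), dist (ζ ^ (i : ℕ)) 1 < δ := fun i => by
    have e1 : ζ ^ (i : ℕ) = Complex.exp (Complex.I * ((2 * Real.pi * i / k : ℝ) : ℂ)) := by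
      rw [hζdef, ← Complex.exp_nat_mul]
      congr 1
      push_cast
      ring
    have e2 : ((i : ℕ) : ℝ) * L ≤ k := by
      exact_mod_cast (Nat.mul_le_mul_right L i.2.le).trans (Nat.div_mul_le_self k L)
    have e3 : (0 : ℝ) < k := by positivity
    rw [e1, Complex.dist_eq]
    refine Real.norm_exp_I_mul_ofReal_sub_one_le.trans_lt ?_
    rw [Real.norm_eq_abs, abs_of_nonneg (by positivity), div_lt_iff₀ e3]
    rw [div_lt_iff₀ hδ] at hL
    refine lt_of_mul_lt_mul_right ?_ hLpos.le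
    nlinarith [mul_lt_mul_of_pos_right hL e3, mul_le_mul_of_nonneg_left e2 Real.pi_pos.le]
  choose γ hγc hγe hγd using fun i => hγ _ (hclose i)
  have hG : ∀ i, ∀ r ∈ uIcc a b, 2 * M.eval (γ i r) = (2 * r : ℝ) * ζ ^ (i : ℕ) := fun i r hr => by
    rw [hγe i r hr]
    push_cast
    ring
  have hin : ∀ i, ∀ r ∈ uIcc a b, ‖γ i r‖ < R := fun i r hr => hball _ (by
    rw [hG i r hr, norm_mul, Complex.norm_eq_one_of_pow_eq_one (hpow i) hk, Complex.norm_real,
      Real.norm_eq_abs, abs_of_pos (by linarith [(hab hr).1])]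
    linarith [(hab hr).2])
  have hmem : ∀ i, ∀ r ∈ uIcc a b, ‖f.eval (γ i r)‖ ≤ 1 := fun i r hr => by
    rw [hf]
    refine (estimates hk (hu _ (hin i r hr).le)).1 (2 * r)
      ⟨by linarith [(hab hr).1], by linarith [(hab hr).2]⟩ ?_
    rw [hG i r hr, mul_pow, hpow, mul_one, Complex.ofReal_pow]
  refine ⟨f, hm1.mul hm2, ?_, Finset.univ.image fun i =>
    connectedComponentIn {w | ‖f.eval w‖ ≤ 1} (γ i a), ?_, ?_⟩
  · rw [hm1.natDegree_mul hm2, natDegree_sub_C, hdk, natDegree_X_pow_add_C, hn']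
  · rw [Finset.card_image_of_injective, Finset.card_univ, Fintype.card_fin]
    · have h1 : n ≤ k / L * (2 * L * d) := by
        have h2 := Nat.mul_le_mul_right d (Nat.lt_div_mul_add (a := k) hL0).le
        nlinarith [Nat.zero_le (d * k₀)]
      rw [one_div_mul_eq_div, div_le_iff₀ (by positivity)]
      exact_mod_cast h1
    · intro i i' h
      have h1 := label_const hk (G := fun z => 2 * M.eval z) (continuous_const.mul M.continuous)
        isPreconnected_connectedComponentIn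
        (hcomp _ (hin i a left_mem_uIcc) (hmem i a left_mem_uIcc))
        (mem_connectedComponentIn (hmem i a left_mem_uIcc))
        (h.symm.subset (mem_connectedComponentIn (hmem i' a left_mem_uIcc)))
      have h2 : 0 < 2 * a := by linarith [(hab left_mem_uIcc).1]
      rw [hG i a left_mem_uIcc, hG i' a left_mem_uIcc, label_radial hk h2 (hpow i),
        label_radial hk h2 (hpow i')] at h1
      exact Fin.ext (hζ.pow_inj (i.2.trans_le (Nat.div_le_self k L))
        (i'.2.trans_le (Nat.div_le_self k L)) h1)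
  · intro C hC
    obtain ⟨i, -, rfl⟩ := Finset.mem_image.1 hC
    have hsub := (isPreconnected_uIcc.image _ (hγc i)).subset_connectedComponentIn
      (F := {w | ‖f.eval w‖ ≤ 1}) (mem_image_of_mem _ left_mem_uIcc)
      (by rintro _ ⟨r, hr, rfl⟩; exact hmem i r hr)
    exact ⟨⟨_, hmem i a left_mem_uIcc, rfl⟩, _, hsub (mem_image_of_mem _ left_mem_uIcc), _,
      hsub (mem_image_of_mem _ right_mem_uIcc), hγd i⟩

/-- Every component contains a zero. -/
lemma comp_zero {f : ℂ[X]} (hd : 0 < f.natDegree) {z : ℂ} (hz : ‖f.eval z‖ ≤ 1) :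
    ∃ w ∈ connectedComponentIn {w | ‖f.eval w‖ ≤ 1} z, f.eval w = 0 := by
  have e : {w | ‖f.eval w‖ ≤ 1} = f.eval ⁻¹' closedBall 0 1 := by
    ext w
    simp
  rw [e]
  have hz' : z ∈ f.eval ⁻¹' closedBall 0 1 := e ▸ hz
  have : CompactSpace (f.eval ⁻¹' closedBall (0 : ℂ) 1) := isCompact_iff_compactSpace.1
    ((f.isProperMap_eval (natDegree_pos_iff_degree_pos.1 hd)).isCompact_preimage
      (isCompact_closedBall 0 1))
  have : PreconnectedSpace (closedBall (0 : ℂ) 1) :=
    isPreconnected_iff_preconnectedSpace.1 (convex_closedBall 0 1).isPreconnected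
  let g := (closedBall (0 : ℂ) 1).restrictPreimage f.eval
  have hg : Continuous g := f.continuous.restrictPreimage
  have ho : IsOpenMap g := (f.isOpenQuotientMap_eval hd.ne').isOpenMap.restrictPreimage _
  by_contra h
  obtain ⟨u, hu⟩ := ((isClosed_singleton (x := ⟨0, mem_closedBall_self zero_le_one⟩)).preimage
    hg).isCompact.elim_finite_subfamily_closed
    (fun s : {s // IsClopen s ∧ (⟨z, hz'⟩ : f.eval ⁻¹' closedBall 0 1) ∈ s} => s.1)
    (fun s => s.2.1.isClosed) (by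
      rw [← connectedComponent_eq_iInter_isClopen, eq_empty_iff_forall_notMem]
      rintro w ⟨h1, h2⟩
      exact h ⟨w, connectedComponentIn_eq_image hz' ▸ mem_image_of_mem _ h2,
        congrArg Subtype.val h1⟩)
  have hK := isClopen_biInter_finset (s := u) fun s _ => s.2.1
  have h1 := IsClopen.eq_univ ⟨(hK.isClosed.isCompact.image hg).isClosed, ho _ hK.isOpen⟩
    ⟨_, mem_image_of_mem g (mem_iInter₂.2 fun s _ => s.2.2)⟩
  obtain ⟨w, hw, h2⟩ := h1.symm.subset (mem_univ ⟨0, mem_closedBall_self zero_le_one⟩)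
  exact hu.subset ⟨h2, hw⟩

lemma encard_le {f : ℂ[X]} (hd : 0 < f.natDegree) :
    {C | ∃ z, ‖f.eval z‖ ≤ 1 ∧ C = connectedComponentIn {w | ‖f.eval w‖ ≤ 1} z}.encard ≤
      f.natDegree := by
  classical
  have h0 : f ≠ 0 := ne_zero_of_natDegree_gt hd
  refine (encard_le_encard (t := connectedComponentIn {w | ‖f.eval w‖ ≤ 1} '' f.roots.toFinset)
    ?_).trans ((encard_image_le _ _).trans ?_)
  · rintro _ ⟨z, hz, rfl⟩
    obtain ⟨w, h1, h2⟩ := comp_zero hd hz
    exact ⟨w, by simpa [h0] using h2, (connectedComponentIn_eq h1).symm⟩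
  · rw [encard_coe_eq_coe_finsetCard]
    exact_mod_cast (Multiset.toFinset_card_le _).trans f.card_roots'

/-- Connected subsets of the lemniscate have all distances below 4. -/
lemma dist_lt {f : ℂ[X]} (hf : f.Monic) (hd : 0 < f.natDegree) {s : Set ℂ} (hs : IsPreconnected s)
    (h : ∀ z ∈ s, ‖f.eval z‖ ≤ 1) {u v : ℂ} (hu : u ∈ s) (hv : v ∈ s) : dist u v < 4 := by
  rcases eq_or_ne v u with rfl | huv
  · simp
  have h0 : v - u ≠ 0 := sub_ne_zero.2 huv
  let π : ℂ → ℝ := fun z => ((2 * z - u - v) / (v - u)).re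
  let P : ℝ[X] := (f.roots.map fun a => X - C (π a)).prod
  have hP : P.Monic := monic_multiset_prod_of_monic _ _ fun a _ => monic_X_sub_C _
  have hc : f.roots.card = f.natDegree := IsAlgClosed.card_roots_eq_natDegree
  have hPd : P.natDegree = f.natDegree := by
    rw [← hc, ← Multiset.card_map π, ← natDegree_multiset_prod_X_sub_C_eq_card,
      Multiset.map_map]
    rfl
  have h1 : ∀ z, (‖v - u‖ / 2) ^ f.natDegree * |P.eval (π z)| ≤ ‖f.eval z‖ := fun z => by
    rw [(IsAlgClosed.splits f).eval_eq_prod_roots_of_monic hf, ← hc, eval_multiset_prod,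
      Multiset.map_map]
    induction f.roots using Multiset.induction_on with
    | empty => simp
    | cons a t ih =>
      simp only [Multiset.map_cons, Multiset.prod_cons, Multiset.card_cons, pow_succ', abs_mul,
        norm_mul]
      rw [mul_mul_mul_comm]
      refine mul_le_mul ?_ ih (by positivity) (norm_nonneg _)
      have h2 := Complex.abs_re_le_norm ((2 * z - u - v) / (v - u) - (2 * a - u - v) / (v - u))
      rw [Complex.sub_re, ← sub_div, show 2 * z - u - v - (2 * a - u - v) = 2 * (z - a) by ring,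
        norm_div, norm_mul, Complex.norm_ofNat, le_div_iff₀ (norm_pos_iff.2 h0)] at h2
      simp only [Function.comp_apply, eval_sub, eval_X, eval_C, π]
      linarith
  have h2 := Chebyshev.coeff_le_of_forall_abs_le_one (n := f.natDegree)
    (P := C ((‖v - u‖ / 2) ^ f.natDegree) * P)
    (degree_le_of_natDegree_le ((natDegree_C_mul_le _ _).trans hPd.le)) fun x hx => by
      have h3 := hs.intermediate_value hu hv (f := π) (by fun_prop)
      rw [show π u = -1 by
          simp only [π, show 2 * u - u - v = -(v - u) by ring, neg_div, div_self h0]; simp,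
        show π v = 1 by simp only [π, show 2 * v - u - v = v - u by ring, div_self h0]; simp] at h3
      obtain ⟨z, hz, rfl⟩ := h3 hx
      rw [eval_mul, eval_C, abs_mul, abs_of_nonneg (by positivity)]
      exact (h1 z).trans (h z hz)
  rw [coeff_C_mul, ← hPd, hP.coeff_natDegree, mul_one, hPd] at h2
  have h3 := lt_of_pow_lt_pow_left₀ _ zero_le_two
    (h2.trans_lt (pow_lt_pow_right₀ one_lt_two (Nat.sub_one_lt hd.ne')))
  rw [dist_comm, dist_eq_norm]
  linarith

end Pool.Agent.Lib.MP_51da40_an.Sharp
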